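import Pool.Agent.helper60.DB.SpecM

/-!
# Row bm:MA (MP_fb2c2a_nt): addition of pairs
-/

set_option autoImplicit false

namespace Pool.Agent.helper60.DB

open Polynomial

theorem MA_EE_mul {R : Type*} [CommRing R] (f g : PowerSeries R) :
    EE (f * g) = f * EE g + g * EE f := by
  unfold EE
  rw [Derivation.leibniz, smul_eq_mul, smul_eq_mul]
  ring

theorem MA_EE_add {R : Type*} [CommRing R] (f g : PowerSeries R) :
    EE (f + g) = EE f + EE g := by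
  unfold EE
  rw [map_add]
  ring

theorem MA_EE_sub {R : Type*} [CommRing R] (f g : PowerSeries R) :
    EE (f - g) = EE f - EE g := by
  unfold EE
  rw [map_sub]
  ring

theorem MA_EE_one {R : Type*} [CommRing R] : EE (1 : PowerSeries R) = 0 := by
  unfold EE
  rw [Derivation.map_one_eq_zero, mul_zero]

theorem MA_EE_X {R : Type*} [CommRing R] :
    EE (PowerSeries.X : PowerSeries R) = 2 * PowerSeries.X := by
  unfold EE
  rw [PowerSeries.derivative_X, mul_one]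

theorem MA_EE_C {R : Type*} [CommRing R] (c : R) : EE (PowerSeries.C c) = 0 := by
  unfold EE
  rw [PowerSeries.derivative_C, mul_zero]

theorem MA_alg1 {S : Type*} [CommRing S] (X a b g1 g2 u1 u2 : S)
    (h1 : u1 ^ 2 = 1 + a * (X * g1 ^ 2) + b * (X * g1 ^ 2) ^ 2)
    (h2 : u2 ^ 2 = 1 + a * (X * g2 ^ 2) + b * (X * g2 ^ 2) ^ 2) :
    ((1 + b * (X * g1 ^ 2) * (X * g2 ^ 2)) * (u1 * u2 + a * (X * g1 * g2))
        + 2 * b * (X * g1 * g2) * (X * g1 ^ 2 + X * g2 ^ 2)) ^ 2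
      = (1 - b * (X * g1 ^ 2) * (X * g2 ^ 2)) ^ 4
        + a * X * (g1 * u2 + g2 * u1) ^ 2 * (1 - b * (X * g1 ^ 2) * (X * g2 ^ 2)) ^ 2
        + b * X ^ 2 * (g1 * u2 + g2 * u1) ^ 4 := by
  have hw : (u1 * u2) ^ 2 = (1 + a * (X * g1 ^ 2) + b * (X * g1 ^ 2) ^ 2) *
      (1 + a * (X * g2 ^ 2) + b * (X * g2 ^ 2) ^ 2) := by
    rw [mul_pow, h1, h2]
  have hp : (g1 * u2 + g2 * u1) ^ 2 = g1 ^ 2 * (1 + a * (X * g2 ^ 2) + b * (X * g2 ^ 2) ^ 2)
      + g2 ^ 2 * (1 + a * (X * g1 ^ 2) + b * (X * g1 ^ 2) ^ 2) + 2 * g1 * g2 * (u1 * u2) := by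
    linear_combination g1 ^ 2 * h2 + g2 ^ 2 * h1
  have hp4 : (g1 * u2 + g2 * u1) ^ 4 = (g1 ^ 2 * (1 + a * (X * g2 ^ 2) + b * (X * g2 ^ 2) ^ 2)
      + g2 ^ 2 * (1 + a * (X * g1 ^ 2) + b * (X * g1 ^ 2) ^ 2) + 2 * g1 * g2 * (u1 * u2)) ^ 2 := by
    rw [← hp]
    ring
  rw [hp, hp4]
  generalize u1 * u2 = w at hw
  linear_combination (1 - b * (X * g1 ^ 2) * (X * g2 ^ 2)) ^ 2 * hw

theorem MA_alg2 {S : Type*} [CommRing S] (X a b g1 g2 u1 u2 y c1 c2 e1 e2 v1 v2 : S)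
    (h1 : u1 ^ 2 = 1 + a * (X * g1 ^ 2) + b * (X * g1 ^ 2) ^ 2)
    (h2 : u2 ^ 2 = 1 + a * (X * g2 ^ 2) + b * (X * g2 ^ 2) ^ 2)
    (o1 : y * (g1 + e1) = c1 * u1) (o2 : y * (g2 + e2) = c2 * u2)
    (d1 : y * v1 = c1 * (X * (a * g1 + 2 * b * X * g1 ^ 3)))
    (d2 : y * v2 = c2 * (X * (a * g2 + 2 * b * X * g2 ^ 3))) :
    y * (1 - b * (X * g1 ^ 2) * (X * g2 ^ 2)) * ((g1 * u2 + g2 * u1) +
        (g1 * v2 + u2 * e1 + (g2 * v1 + u1 * e2)))
      + y * (b * ((X * g1 ^ 2) * (2 * X * g2 * (g2 + e2)) + (X * g2 ^ 2) * (2 * X * g1 * (g1 + e1))))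
        * (g1 * u2 + g2 * u1)
      = (c1 + c2) * ((1 + b * (X * g1 ^ 2) * (X * g2 ^ 2)) * (u1 * u2 + a * (X * g1 * g2))
        + 2 * b * (X * g1 * g2) * (X * g1 ^ 2 + X * g2 ^ 2)) := by
  have hA : y * (1 - b * (X * g1 ^ 2) * (X * g2 ^ 2)) * ((g1 * u2 + g2 * u1) +
        (g1 * v2 + u2 * e1 + (g2 * v1 + u1 * e2)))
      = (1 - b * (X * g1 ^ 2) * (X * g2 ^ 2)) * (c1 * u1 * u2 + c2 * u2 * u1 +
        g1 * (c2 * (X * (a * g2 + 2 * b * X * g2 ^ 3))) +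
        g2 * (c1 * (X * (a * g1 + 2 * b * X * g1 ^ 3)))) := by
    linear_combination (1 - b * (X * g1 ^ 2) * (X * g2 ^ 2)) *
      (u2 * o1 + u1 * o2 + g1 * d2 + g2 * d1)
  have hB : y * (b * ((X * g1 ^ 2) * (2 * X * g2 * (g2 + e2)) +
        (X * g2 ^ 2) * (2 * X * g1 * (g1 + e1)))) * (g1 * u2 + g2 * u1)
      = b * ((X * g1 ^ 2) * (2 * X * g2 * (c2 * u2)) +
        (X * g2 ^ 2) * (2 * X * g1 * (c1 * u1))) * (g1 * u2 + g2 * u1) := by
    linear_combination (b * (g1 * u2 + g2 * u1)) * ((X * g1 ^ 2) * (2 * X * g2) * o2 +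
      (X * g2 ^ 2) * (2 * X * g1) * o1)
  rw [hA, hB]
  linear_combination (2 * b * X * g1 * g2 * (X * g1 ^ 2) * c2) * h2 +
    (2 * b * X * g1 * g2 * (X * g2 ^ 2) * c1) * h1

theorem MA (hMD : MD_stmt) : MA_stmt := by
  intro R _ _ _ A' B' α1 α2 y g1 u1 g2 u2 H1 H2
  have hd1 := hMD R A' B' α1 y g1 u1 H1
  have hd2 := hMD R A' B' α2 y g2 u2 H2
  set a : PowerSeries R := PowerSeries.C A' with ha
  set b : PowerSeries R := PowerSeries.C B' with hb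
  set X : PowerSeries R := PowerSeries.X with hX
  set δ : PowerSeries R := 1 - b * (X * g1 ^ 2) * (X * g2 ^ 2) with hδ
  have hX0 : PowerSeries.constantCoeff X = 0 := by rw [hX]; exact PowerSeries.constantCoeff_X
  have hδ1 : PowerSeries.constantCoeff δ = 1 := by
    rw [hδ, map_sub, map_one, map_mul, map_mul, map_mul, hX0]
    ring
  have hu : IsUnit δ := by
    rw [PowerSeries.isUnit_iff_constantCoeff, hδ1]
    exact isUnit_one
  obtain ⟨v, hv⟩ := hu.exists_right_inv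
  set p : PowerSeries R := g1 * u2 + g2 * u1 with hp
  set q : PowerSeries R := (1 + b * (X * g1 ^ 2) * (X * g2 ^ 2)) * (u1 * u2 + a * (X * g1 * g2))
    + 2 * b * (X * g1 * g2) * (X * g1 ^ 2 + X * g2 ^ 2) with hq
  have hg3 : δ * (v * p) = p := by rw [← mul_assoc, hv, one_mul]
  have hu3 : δ ^ 2 * (v ^ 2 * q) = q := by
    calc δ ^ 2 * (v ^ 2 * q) = (δ * v) ^ 2 * q := by ring
      _ = q := by rw [hv, one_pow, one_mul]
  refine ⟨v * p, v ^ 2 * q, ?_, hg3, hu3⟩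
  generalize hg : v * p = g3 at hg3
  generalize huu : v ^ 2 * q = u3 at hu3
  have hcur : q ^ 2 = δ ^ 4 + a * X * p ^ 2 * δ ^ 2 + b * X ^ 2 * p ^ 4 :=
    MA_alg1 X a b g1 g2 u1 u2 H1.cur H2.cur
  have hinj : ∀ f g : PowerSeries R, δ ^ 4 * f = δ ^ 4 * g → f = g := by
    intro f g hfg
    exact (hu.pow 4).mul_left_cancel hfg
  have hinj2 : ∀ f g : PowerSeries R, δ ^ 2 * f = δ ^ 2 * g → f = g := by
    intro f g hfg
    exact (hu.pow 2).mul_left_cancel hfg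
  constructor
  · -- constant coefficient of `g3`
    have h := congrArg PowerSeries.constantCoeff hg3
    rw [map_mul, hδ1, one_mul, hp, map_add, map_mul, map_mul, H1.cg, H2.cg, H1.cu, H2.cu,
      mul_one, mul_one] at h
    exact h
  · have h := congrArg PowerSeries.constantCoeff hu3
    rw [map_mul, map_pow, hδ1, one_pow, one_mul, hq] at h
    rw [h]
    simp only [map_add, map_mul, map_one, map_pow, hX0, H1.cu, H2.cu]
    ring
  · apply hinj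
    have h1 : δ ^ 4 * u3 ^ 2 = q ^ 2 := by
      rw [← hu3]
      ring
    have h2 : δ ^ 4 * (1 + a * (X * g3 ^ 2) + b * (X * g3 ^ 2) ^ 2) =
        δ ^ 4 + a * X * (δ * g3) ^ 2 * δ ^ 2 + b * X ^ 2 * (δ * g3) ^ 4 := by ring
    rw [h1, h2, hg3, hcur]
  · apply hinj2
    -- the derivative of `δ g3 = p`
    have hEX : ∀ g : PowerSeries R, EE (X * g ^ 2) = 2 * X * g * (g + EE g) := by
      intro g
      rw [MA_EE_mul, pow_two, MA_EE_mul, hX, MA_EE_X]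
      ring
    have hEδ : EE δ = -(b * ((X * g1 ^ 2) * (2 * X * g2 * (g2 + EE g2)) +
        (X * g2 ^ 2) * (2 * X * g1 * (g1 + EE g1)))) := by
      rw [hδ, MA_EE_sub, MA_EE_one, mul_assoc, MA_EE_mul, hb, MA_EE_C, MA_EE_mul, hEX, hEX]
      ring
    have hEp : EE p = g1 * EE u2 + u2 * EE g1 + (g2 * EE u1 + u1 * EE g2) := by
      rw [hp, MA_EE_add, MA_EE_mul, MA_EE_mul]
    have hE : δ * EE g3 + g3 * EE δ = EE p := by
      rw [← hg3, MA_EE_mul]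
    have halg := MA_alg2 X a b g1 g2 u1 u2 y (PowerSeries.C α1) (PowerSeries.C α2) (EE g1) (EE g2)
      (EE u1) (EE u2) H1.cur H2.cur H1.ode H2.ode hd1 hd2
    rw [← hEp, ← hp, ← hq, ← hδ] at halg
    have h3 : δ ^ 2 * (y * (g3 + EE g3)) = y * δ * (p + EE p) + y * (-EE δ) * p := by
      rw [← hE]
      linear_combination (y * δ - y * EE δ) * hg3
    rw [h3, hEδ, neg_neg, halg, map_add, ← hu3]
    ring

end Pool.Agent.helper60.DB
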